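import Pool.Agent.helper88.OF.Defs
import Pool.Agent.helper76.LP.Main

/-! # Project OF: auxiliary lemmas of the phases -/

namespace Pool.Agent.helper88.OF

open Finset Pool.Agent.helper76.LP

lemma PA_odd {m D : ℕ} [NeZero m] [NeZero D] (hD : D ∣ m) (c : ZMod m → ℤ) (x : (ZMod D)ˣ) :
    anti c (emb D m ((-x : (ZMod D)ˣ) : ZMod D)) = - anti c (emb D m (x : ZMod D)) := by
  rw [Units.val_neg, emb_neg hD, anti_odd]

lemma PA_sum {m D : ℕ} [NeZero m] [NeZero D] (hD : D ∣ m) (F : ZMod m → ℤ)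
    (hB : normw F ≤ 12) : ∑ z : (ZMod D)ˣ, |F (emb D m (z : ZMod D))| ≤ 12 := by
  have h1 := sum_emb_le_normw m D hD F
  have h2 := wo_pos D
  have h3 : 0 ≤ ∑ z : (ZMod D)ˣ, |F (emb D m (z : ZMod D))| :=
    Finset.sum_nonneg fun _ _ => abs_nonneg _
  nlinarith

lemma PA_mdv {m D : ℕ} [NeZero m] [NeZero D] (hD : D ∣ m) (c : ZMod m → ℤ) (hT : TateF (anti c))
    (hmax : ∀ x, D ∣ addOrderOf x → addOrderOf x ≠ D → anti c x = 0) (L : List ℕ)
    (hL : L.toFinset = D.primeFactors) :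
    MDv (Gam D) L (fun z => anti c (emb D m (z : ZMod D))) := by
  refine mdiff m (anti c) (anti_odd c) hT D hD hmax L ?_
  intro p hp
  rw [← hL] at hp
  exact List.mem_toFinset.1 hp

lemma PA_div_lt {D p : ℕ} (hD : 0 < D) (hp : p ∈ D.primeFactors) : D / p < D :=
  Nat.div_lt_self hD (Nat.prime_of_mem_primeFactors hp).one_lt

lemma PA_div_dvd {D p : ℕ} (hp : p ∈ D.primeFactors) : D / p ∣ D :=
  Nat.div_dvd_of_dvd (Nat.dvd_of_mem_primeFactors hp)

/-- a multiple of `D` which is at most `D` and positive is `D` -/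
lemma PA_eq {D n : ℕ} (hn : 0 < n) (h : D ∣ n) (hle : n ≤ D) : n = D :=
  Nat.le_antisymm hle (Nat.le_of_dvd hn h)

lemma PB_sum12 {m : ℕ} [NeZero m] (F : ZMod m → ℤ) (hB : normw F ≤ 12) : ∑ x, |F x| ≤ 12 := by
  refine le_trans ?_ hB
  unfold normw
  apply Finset.sum_le_sum
  intro x _
  have h1 := wo_pos (addOrderOf x)
  have h2 := abs_nonneg (F x)
  nlinarith

lemma PB_no9 {m : ℕ} [NeZero m] {D : ℕ} (h9 : ¬ 9 ∣ D) {c c' : ZMod m → ℤ} (hN : No9 (anti c))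
    (h : ∀ x, anti c' x ≠ 0 → anti c x ≠ 0 ∨ ∃ p ∈ D.primeFactors, addOrderOf x = D / p) :
    No9 (anti c') := by
  intro x hx
  by_contra h0
  rcases h x h0 with h1 | ⟨p, hp, h1⟩
  · exact h1 (hN x hx)
  · rw [h1] at hx
    exact h9 (hx.trans (PA_div_dvd hp))

end Pool.Agent.helper88.OF
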