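import Pool.Agent.helper88.OF.Defs
import Pool.Agent.helper76.LP.Main
import Pool.Agent.helper23.OF.P0
import Pool.Agent.helper97.OF.S2
import Pool.Agent.helper15.OF.D9

/-! # Project OF: phase A (orders divisible by 9) -/

namespace Pool.Agent.helper88.OF

open Finset Pool.Agent.helper76.LP

open Pool.Agent.helper34.DH in
lemma PA_ind (m : ℕ) [NeZero m] (h2 : Odd m) : ∀ (D : ℕ) (c : ZMod m → ℤ), TateF (anti c) →
    normw (anti c) ≤ 12 → (∀ x, 9 ∣ addOrderOf x → anti c x ≠ 0 → addOrderOf x ≤ D) →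
    ∃ c' : ZMod m → ℤ, TateF (anti c') ∧ No9 (anti c') ∧ normw (anti c') ≤ 12 ∧
      ∃ j : ℤ, cls m c' = cls m c + j • hh := by
  intro D
  induction D with
  | zero =>
    intro c hT hB h
    refine ⟨c, hT, ?_, hB, 0, by simp⟩
    intro x hx
    by_contra h0
    have h1 := h x hx h0
    have h3 := addOrderOf_pos x
    omega
  | succ D ih =>
    intro c hT hB h
    by_cases hD : (D + 1) ∣ m ∧ 9 ∣ (D + 1)
    · obtain ⟨hD, h9⟩ := hD
      have : NeZero (D + 1) := ⟨Nat.succ_ne_zero D⟩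
      have hDo : Odd (D + 1) := Odd.of_dvd_nat h2 hD
      have hmax : ∀ x, (D + 1) ∣ addOrderOf x → addOrderOf x ≠ D + 1 → anti c x = 0 := by
        intro x h1 h3
        by_contra h4
        exact h3 (PA_eq (addOrderOf_pos x) h1 (h x (h9.trans h1) h4))
      have hdec : Dec (D + 1) (fun z => anti c (emb (D + 1) m (z : ZMod (D + 1)))) :=
        dec_nine (D + 1) hDo h9 _ (PA_odd hD c) (fun L _ hL => PA_mdv hD c hT hmax L hL)
          (PA_sum hD _ hB)
      obtain ⟨c', h1, h3, h4, h5, j, hj⟩ := step2 m (D + 1) hD c hT hdec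
      obtain ⟨c'', g1, g2, g3, i, hi⟩ := ih c' h1 (h5.trans hB) (by
        intro x hx hx0
        have h6 : addOrderOf x ≠ D + 1 := fun h7 => hx0 (h3 x h7)
        rcases h4 x hx0 with h7 | ⟨p, hp, h7⟩
        · have := h x hx h7
          omega
        · have := PA_div_lt (D := D + 1) (by omega) hp
          omega)
      refine ⟨c'', g1, g2, g3, j + i, ?_⟩
      rw [hi, hj, add_smul, add_assoc]
    · apply ih c hT hB
      intro x hx hx0
      have h1 := h x hx hx0
      have h3 : addOrderOf x ≠ D + 1 := by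
        intro h4
        exact hD ⟨h4 ▸ addOrderOf_dvd' x, h4 ▸ hx⟩
      omega

open Pool.Agent.helper34.DH in
theorem phaseA (m : ℕ) [NeZero m] (h2 : Odd m) (c : ZMod m → ℤ) (hT : TateF (anti c))
    (h12 : normw (anti c) ≤ 12) :
    ∃ c' : ZMod m → ℤ, TateF (anti c') ∧ No9 (anti c') ∧ normw (anti c') ≤ 12 ∧
      ∃ j : ℤ, cls m c' = cls m c + j • hh := by
  refine PA_ind m h2 m c hT h12 ?_
  intro x _ _
  exact Nat.le_of_dvd (Nat.pos_of_ne_zero (NeZero.ne m)) (addOrderOf_dvd' x)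

end Pool.Agent.helper88.OF
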