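import Pool.Agent.helper23.OF.P0
import Pool.Agent.helper97.OF.S2
import Pool.Agent.helper97.OF.NM
import Pool.Agent.helper32.OF.TW
import Pool.Agent.helper52.OF.DB

/-! # Project OF: phase B (orders divisible by 3) -/

namespace Pool.Agent.helper88.OF

open Finset Pool.Agent.helper76.LP

/-- bad orders of phase B -/
def PBbad (e : ℕ) : Prop := 3 ∣ e ∧ e ≠ 3 ∧ ¬ (e / 3).Prime

lemma PB_bad_mul {D e : ℕ} (hD : PBbad D) (he : 0 < e) (h : D ∣ e) (hne : e ≠ D) : PBbad e := by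
  obtain ⟨h1, h2, h3⟩ := hD
  obtain ⟨a, rfl⟩ := h1
  obtain ⟨k, rfl⟩ := h
  have h0 : 0 < 3 * a := Nat.pos_of_dvd_of_pos (Dvd.intro _ rfl) he
  have ha0 : 0 < a := by omega
  have ha1 : a ≠ 1 := by rintro rfl; exact h2 (by norm_num)
  have hk0 : k ≠ 0 := by rintro rfl; simp at he
  have hk1 : k ≠ 1 := by rintro rfl; exact hne (by ring)
  refine ⟨⟨a * k, by ring⟩, ?_, ?_⟩
  · intro h4
    have h5 : a * k = 1 := by
      have : 3 * (a * k) = 3 * 1 := by rw [← mul_assoc, h4]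
      exact Nat.eq_of_mul_eq_mul_left (by norm_num) this
    exact ha1 (Nat.eq_one_of_mul_eq_one_right h5)
  · have h4 : 3 * a * k / 3 = a * k := by
      rw [mul_assoc, Nat.mul_div_cancel_left _ (by norm_num)]
    rw [h4]
    exact Nat.not_prime_mul ha1 hk1

open Pool.Agent.helper34.DH in
lemma PB_ind (m : ℕ) [NeZero m] (h2 : Odd m) (u : (ZMod m)ˣ) (hu : IsTw m u) :
    ∀ (D : ℕ) (c : ZMod m → ℤ), TateF (anti c) → No9 (anti c) →
    normw (anti c) ≤ 12 → (∀ x, PBbad (addOrderOf x) → anti c x ≠ 0 → addOrderOf x ≤ D) →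
    ∃ c' : ZMod m → ℤ, TateF (anti c') ∧ No9 (anti c') ∧ normw (anti c') ≤ 12 ∧
      (∀ x, anti c' x ≠ 0 → ¬ PBbad (addOrderOf x)) ∧
      ∃ j : ℤ, cls m c' = cls m c + j • hh := by
  intro D
  induction D with
  | zero =>
    intro c hT hN9 hB h
    refine ⟨c, hT, hN9, hB, ?_, 0, by simp⟩
    intro x hx hb
    have h1 := h x hb hx
    have h3 := addOrderOf_pos x
    omega
  | succ D ih =>
    intro c hT hN9 hB h
    by_cases hD : (D + 1) ∣ m ∧ PBbad (D + 1) ∧ ¬ 9 ∣ (D + 1)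
    · obtain ⟨hD, hb, h9⟩ := hD
      have : NeZero (D + 1) := ⟨Nat.succ_ne_zero D⟩
      obtain ⟨c₁, k1, k2, k3, k4, k5, j₁, hj₁⟩ := normalise m h2 u hu c hT hN9
      have hbd : ∀ x, PBbad (addOrderOf x) → anti c₁ x ≠ 0 → addOrderOf x ≤ D + 1 := by
        intro x hx hx0
        rcases k4 x hx0 with h3 | ⟨y, hy, hyx⟩
        · exact h x hx h3
        · exfalso
          apply hy
          apply hN9
          rw [hyx]
          obtain ⟨a, ha⟩ := hx.1
          exact ⟨a, by rw [ha]; ring⟩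
      have hmax : ∀ x, (D + 1) ∣ addOrderOf x → addOrderOf x ≠ D + 1 → anti c₁ x = 0 := by
        intro x h1 h3
        by_contra h4
        exact h3 (PA_eq (addOrderOf_pos x) h1
          (hbd x (PB_bad_mul hb (addOrderOf_pos x) h1 h3) h4))
      have hB₁ := k5.trans hB
      have hdec := dec_three m h2 u hu (anti c₁) (anti_odd c₁) k1 k3 k2 (PB_sum12 _ hB₁)
        (D + 1) hD hb.1 h9 hb.2.1 hb.2.2 hmax
      obtain ⟨c', h1, h3, h4, h5, j, hj⟩ := step2 m (D + 1) hD c₁ k1 hdec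
      obtain ⟨c'', g1, g2, g3, g4, i, hi⟩ := ih c' h1 (PB_no9 h9 k2 h4) (h5.trans hB₁) (by
        intro x hx hx0
        have h6 : addOrderOf x ≠ D + 1 := fun h7 => hx0 (h3 x h7)
        rcases h4 x hx0 with h7 | ⟨p, hp, h7⟩
        · have := hbd x hx h7
          omega
        · have := PA_div_lt (D := D + 1) (by omega) hp
          omega)
      refine ⟨c'', g1, g2, g3, g4, j₁ + j + i, ?_⟩
      rw [hi, hj, hj₁, add_smul, add_smul]
      abel
    · apply ih c hT hN9 hB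
      intro x hx hx0
      have h1 := h x hx hx0
      have h3 : addOrderOf x ≠ D + 1 := by
        intro h4
        exact hD ⟨h4 ▸ addOrderOf_dvd' x, h4 ▸ hx, fun h5 => hx0 (hN9 x (h4 ▸ h5))⟩
      omega

open Pool.Agent.helper34.DH in
theorem phaseB (m : ℕ) [NeZero m] (h2 : Odd m) (c : ZMod m → ℤ) (hT : TateF (anti c))
    (hN9 : No9 (anti c)) (h12 : normw (anti c) ≤ 12) :
    ∃ c' : ZMod m → ℤ, TateF (anti c') ∧ No9 (anti c') ∧ normw (anti c') ≤ 12 ∧
      (∀ x, anti c' x ≠ 0 → 3 ∣ addOrderOf x →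
        addOrderOf x = 3 ∨ (addOrderOf x / 3).Prime) ∧
      ∃ j : ℤ, cls m c' = cls m c + j • hh := by
  obtain ⟨u, hu⟩ := exists_tw m
  obtain ⟨c', h1, h3, h4, h5, h6⟩ := PB_ind m h2 u hu m c hT hN9 h12 (fun x _ _ =>
    Nat.le_of_dvd (Nat.pos_of_ne_zero (NeZero.ne m)) (addOrderOf_dvd' x))
  refine ⟨c', h1, h3, h4, ?_, h6⟩
  intro x hx h7
  by_contra hcon
  push Not at hcon
  exact h5 x hx ⟨h7, hcon.1, hcon.2⟩

end Pool.Agent.helper88.OF
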