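import Pool.Agent.helper23.OF.P0
import Pool.Agent.helper97.OF.S2

/-! # Project OF: phase C (orders prime to 3) -/

namespace Pool.Agent.helper88.OF

open Finset Pool.Agent.helper76.LP

lemma PC_35 (m : ℕ) [NeZero m] (c : ZMod m → ℤ) (hT : TateF (anti c)) (hB : normw (anti c) ≤ 12)
    (hD : 35 ∣ m)
    (hmax : ∀ x, 35 ∣ addOrderOf x → addOrderOf x ≠ 35 → anti c x = 0) :
    Dec 35 (fun z => anti c (emb 35 m (z : ZMod 35))) := by
  refine ex35 _ (PA_odd hD c) (PA_mdv hD c hT hmax [5, 7] ?_) (PA_sum hD _ hB) ?_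
  · have : Nat.primeFactors 35 = {5, 7} := by
      rw [show (35 : ℕ) = 5 * 7 by norm_num, Nat.primeFactors_mul (by norm_num) (by norm_num),
        Nat.Prime.primeFactors (by norm_num), Nat.Prime.primeFactors (by norm_num)]
      rfl
    rw [this]; rfl
  · intro h12 t
    -- the support is contained in the elements of order 35
    have hs : ∀ x, addOrderOf x ≠ 35 → anti c x = 0 := by
      classical
      have h1 : ∑ x ∈ univ.filter (fun x : ZMod m => addOrderOf x ≠ 35),
          wo (addOrderOf x) * |anti c x| ≤ 0 := by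
        have h2 : ∑ x ∈ univ.filter (fun x : ZMod m => addOrderOf x = 35),
            wo (addOrderOf x) * |anti c x| = 12 := by
          rw [← h12]
          symm
          refine Finset.sum_bij (fun z _ => emb 35 m (z : ZMod 35)) ?_ ?_ ?_ ?_
          · intro z _
            rw [Finset.mem_filter]
            exact ⟨Finset.mem_univ _, addOrderOf_emb hD z⟩
          · intro z _ w _ h
            exact Units.ext (emb_injective hD h)
          · intro x hx
            rw [Finset.mem_filter] at hx
            obtain ⟨z, hz⟩ := exists_emb x hx.2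
            exact ⟨z, Finset.mem_univ _, hz⟩
          · intro z _
            rw [addOrderOf_emb hD]
            unfold wo
            norm_num
        have h3 := Finset.sum_filter_add_sum_filter_not (univ : Finset (ZMod m))
          (fun x => addOrderOf x = 35) (fun x => wo (addOrderOf x) * |anti c x|)
        unfold normw at hB
        have h4 : ∑ x ∈ univ.filter (fun x : ZMod m => ¬ addOrderOf x = 35),
          wo (addOrderOf x) * |anti c x| ≤ 0 := by linarith
        exact h4
      intro x hx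
      have h5 : ∀ y ∈ univ.filter (fun x : ZMod m => addOrderOf x ≠ 35),
          0 ≤ wo (addOrderOf y) * |anti c y| := by
        intro y _
        have := wo_pos (addOrderOf y)
        positivity
      have h6 := (Finset.sum_eq_zero_iff_of_nonneg h5).1 (le_antisymm h1
        (Finset.sum_nonneg h5)) x (by rw [Finset.mem_filter]; exact ⟨Finset.mem_univ _, hx⟩)
      have h7 := wo_pos (addOrderOf x)
      rcases mul_eq_zero.1 h6 with h8 | h8
      · omega
      · exact abs_eq_zero.1 h8
    obtain ⟨t', ht'⟩ := ZMod.unitsMap_surjective hD t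
    have h1 := hT t'
    have h2 : ∑ x, anti c x * saw m ((t' : ZMod m) * x) =
        ∑ z : (ZMod 35)ˣ, anti c (emb 35 m (z : ZMod 35)) *
          (((m / 35 : ℕ) : ℤ) * saw 35 ((t : ZMod 35) * z)) := by
      classical
      have h3 : ∑ x, anti c x * saw m ((t' : ZMod m) * x) =
          ∑ x ∈ univ.image (fun z : (ZMod 35)ˣ => emb 35 m (z : ZMod 35)),
            anti c x * saw m ((t' : ZMod m) * x) := by
        symm
        apply Finset.sum_subset (Finset.subset_univ _)
        intro x _ hx
        rw [hs x, zero_mul]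
        intro h
        obtain ⟨z, hz⟩ := exists_emb x h
        exact hx (Finset.mem_image.2 ⟨z, Finset.mem_univ _, hz⟩)
      rw [h3, Finset.sum_image (fun z _ w _ h => Units.ext (emb_injective hD h))]
      apply Finset.sum_congr rfl
      intro z _
      congr 1
      rw [mul_emb hD]
      have h4 : (ZMod.castHom hD (ZMod 35) (t' : ZMod m)) = (t : ZMod 35) := by
        rw [← ht']; rfl
      rw [h4]
      have h5 : (t : ZMod 35) * z = ((t * z : (ZMod 35)ˣ) : ZMod 35) := by simp
      rw [h5]
      have hne : emb 35 m ((t * z : (ZMod 35)ˣ) : ZMod 35) ≠ 0 := by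
        intro h0
        have h6 := addOrderOf_emb hD (t * z)
        rw [h0, addOrderOf_zero] at h6
        norm_num at h6
      have hne' : ((t * z : (ZMod 35)ˣ) : ZMod 35) ≠ 0 := by
        intro h0
        apply hne
        rw [h0, emb_zero]
      unfold saw
      rw [if_neg hne, if_neg hne', emb_val hD]
      have h7 : (m : ℤ) = (35 : ℤ) * ((m / 35 : ℕ) : ℤ) := by
        exact_mod_cast (Nat.mul_div_cancel' hD).symm
      push_cast at h7 ⊢
      nlinarith
    rw [h2] at h1
    have h3 : ((m / 35 : ℕ) : ℤ) * ∑ z : (ZMod 35)ˣ, anti c (emb 35 m (z : ZMod 35)) *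
        saw 35 ((t : ZMod 35) * z) = 0 := by
      rw [← h1, Finset.mul_sum]
      exact Finset.sum_congr rfl fun z _ => by ring
    rcases mul_eq_zero.1 h3 with h4 | h4
    · exfalso
      have h5 : m / 35 = 0 := by exact_mod_cast h4
      have h6 := Nat.div_pos (Nat.le_of_dvd (Nat.pos_of_ne_zero (NeZero.ne m)) hD)
        (show 0 < 35 by norm_num)
      omega
    · exact h4

/-- bad orders of phase C -/
def PCbad (e : ℕ) : Prop := ¬ 3 ∣ e ∧ ¬ e.Prime ∧ e ≠ 1

/-- the orders divisible by 3 which are left by phase B -/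
def PCgood (e : ℕ) : Prop := 3 ∣ e → e = 3 ∨ (e / 3).Prime

lemma PC_bad_mul {D e : ℕ} (hD : PCbad D) (h : D ∣ e) (hne : e ≠ D)
    (hg : PCgood e) : PCbad e := by
  obtain ⟨h1, h2, h3⟩ := hD
  by_cases h5 : 3 ∣ e
  · exfalso
    have hc : Nat.Coprime D 3 := ((Nat.Prime.coprime_iff_not_dvd (by norm_num)).2 h1).symm
    rcases hg h5 with h6 | h6
    · rw [h6] at h
      exact h3 (Nat.eq_one_of_dvd_coprimes hc dvd_rfl h)
    · obtain ⟨a, rfl⟩ := h5
      rw [Nat.mul_div_cancel_left _ (by norm_num)] at h6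
      have h7 : D ∣ a := hc.dvd_of_dvd_mul_left h
      rcases (Nat.dvd_prime h6).1 h7 with h8 | h8
      · exact h3 h8
      · exact h2 (h8 ▸ h6)
  · refine ⟨h5, ?_, ?_⟩
    · intro h6
      rcases (Nat.dvd_prime h6).1 h with h8 | h8
      · exact h3 h8
      · exact hne h8.symm
    · rintro rfl
      exact h3 (Nat.dvd_one.1 h)

open Pool.Agent.helper34.DH in
lemma PC_ind (m : ℕ) [NeZero m] (h2 : Odd m) :
    ∀ (D : ℕ) (c : ZMod m → ℤ), TateF (anti c) → No9 (anti c) →
    normw (anti c) ≤ 12 → (∀ x, anti c x ≠ 0 → PCgood (addOrderOf x)) →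
    (∀ x, PCbad (addOrderOf x) → anti c x ≠ 0 → addOrderOf x ≤ D) →
    ∃ c' : ZMod m → ℤ, TateF (anti c') ∧ No9 (anti c') ∧ normw (anti c') ≤ 12 ∧
      (∀ x, anti c' x ≠ 0 → PCgood (addOrderOf x)) ∧
      (∀ x, anti c' x ≠ 0 → ¬ PCbad (addOrderOf x)) ∧
      ∃ j : ℤ, cls m c' = cls m c + j • hh := by
  intro D
  induction D with
  | zero =>
    intro c hT hN9 hB hg h
    refine ⟨c, hT, hN9, hB, hg, ?_, 0, by simp⟩
    intro x hx hb
    have h1 := h x hb hx
    have h3 := addOrderOf_pos x
    omega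
  | succ D ih =>
    intro c hT hN9 hB hg h
    by_cases hD : (D + 1) ∣ m ∧ PCbad (D + 1)
    · obtain ⟨hD, hb⟩ := hD
      have : NeZero (D + 1) := ⟨Nat.succ_ne_zero D⟩
      have hDo : Odd (D + 1) := Odd.of_dvd_nat h2 hD
      have hmax : ∀ x, (D + 1) ∣ addOrderOf x → addOrderOf x ≠ D + 1 → anti c x = 0 := by
        intro x h1 h3
        by_contra h4
        exact h3 (PA_eq (addOrderOf_pos x) h1 (h x (PC_bad_mul hb h1 h3 (hg x h4)) h4))
      have hdec : Dec (D + 1) (fun z => anti c (emb (D + 1) m (z : ZMod (D + 1)))) := by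
        by_cases h35 : D + 1 = 35
        · obtain rfl : D = 34 := by omega
          exact PC_35 m c hT hB hD hmax
        · have h6 : Nat.Coprime (D + 1) 6 := by
            have hc3 : Nat.Coprime (D + 1) 3 :=
              ((Nat.Prime.coprime_iff_not_dvd (by norm_num)).2 hb.1).symm
            have hc2 : Nat.Coprime (D + 1) 2 := Nat.coprime_two_right.2 hDo
            exact Nat.Coprime.mul_right hc2 hc3
          exact dec_ex (D + 1) h6 h35 _ (PA_odd hD c)
            (fun L _ hL => PA_mdv hD c hT hmax L hL) (PA_sum hD _ hB)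
      obtain ⟨c', h1, h3, h4, h5, j, hj⟩ := step2 m (D + 1) hD c hT hdec
      have h9 : ¬ 9 ∣ (D + 1) := fun h => hb.1 ((by norm_num : 3 ∣ 9).trans h)
      obtain ⟨c'', g1, g2, g3, g4, g5, i, hi⟩ := ih c' h1 (PB_no9 h9 hN9 h4) (h5.trans hB) (by
        intro x hx hx3
        rcases h4 x hx with h7 | ⟨p, hp, h7⟩
        · exact hg x h7 hx3
        · exfalso
          rw [h7] at hx3
          exact hb.1 (hx3.trans (PA_div_dvd hp))) (by
        intro x hx hx0
        have h6 : addOrderOf x ≠ D + 1 := fun h7 => hx0 (h3 x h7)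
        rcases h4 x hx0 with h7 | ⟨p, hp, h7⟩
        · have := h x hx h7
          omega
        · have := PA_div_lt (D := D + 1) (by omega) hp
          omega)
      refine ⟨c'', g1, g2, g3, g4, g5, j + i, ?_⟩
      rw [hi, hj, add_smul]
      abel
    · apply ih c hT hN9 hB hg
      intro x hx hx0
      have h1 := h x hx hx0
      have h3 : addOrderOf x ≠ D + 1 := by
        intro h4
        exact hD ⟨h4 ▸ addOrderOf_dvd' x, h4 ▸ hx⟩
      omega

open Pool.Agent.helper34.DH in
theorem phaseC (m : ℕ) [NeZero m] (h2 : Odd m) (c : ZMod m → ℤ) (hT : TateF (anti c))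
    (hN9 : No9 (anti c)) (h12 : normw (anti c) ≤ 12)
    (hB : ∀ x, anti c x ≠ 0 → 3 ∣ addOrderOf x → addOrderOf x = 3 ∨ (addOrderOf x / 3).Prime) :
    ∃ c' : ZMod m → ℤ, TateF (anti c') ∧ No9 (anti c') ∧ normw (anti c') ≤ 12 ∧
      (∀ x, anti c' x ≠ 0 → (addOrderOf x).Prime ∨
        ∃ p, p.Prime ∧ 5 ≤ p ∧ addOrderOf x = 3 * p) ∧
      ∃ j : ℤ, cls m c' = cls m c + j • hh := by
  obtain ⟨c', h1, h3, h4, h5, h6, h7⟩ := PC_ind m h2 m c hT hN9 h12 hB (fun x _ _ =>
    Nat.le_of_dvd (Nat.pos_of_ne_zero (NeZero.ne m)) (addOrderOf_dvd' x))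
  refine ⟨c', h1, h3, h4, ?_, h7⟩
  intro x hx
  have hodd : Odd (addOrderOf x) := Odd.of_dvd_nat h2 (addOrderOf_dvd' x)
  by_cases h8 : 3 ∣ addOrderOf x
  · rcases h5 x hx h8 with h9 | h9
    · left; rw [h9]; norm_num
    · right
      obtain ⟨a, ha⟩ := h8
      rw [ha, Nat.mul_div_cancel_left _ (by norm_num)] at h9
      refine ⟨a, h9, ?_, ha⟩
      have h10 := h9.two_le
      have ha2 : a ≠ 2 := by
        rintro rfl
        rw [ha] at hodd
        revert hodd; decide
      have ha3 : a ≠ 3 := by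
        rintro rfl
        exact hx (h3 x (by rw [ha]))
      have ha4 : a ≠ 4 := by
        rintro rfl
        revert h9; norm_num
      omega
  · left
    by_contra h9
    refine h6 x hx ⟨h8, h9, ?_⟩
    intro h10
    have h11 : x = 0 := AddMonoid.addOrderOf_eq_one_iff.1 h10
    apply hx
    rw [h11]
    unfold anti
    simp

end Pool.Agent.helper88.OF
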