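import Pool.Agent.helper76.LP.Main2
import Pool.Agent.helper23.OF.P0
import Pool.Agent.helper97.OF.S2
import Pool.Agent.helper32.OF.TW

/-! # Project OF: phase D (orders `3 p` and primes) -/

namespace Pool.Agent.helper88.OF

open Finset Pool.Agent.helper76.LP

/-! ### prime orders -/

lemma PD_top (q : ℕ) (hq : q.Prime) (u : (ZMod q)ˣ) : u ∈ Gam q q := by
  unfold Gam
  rw [dif_pos dvd_rfl, MonoidHom.mem_ker]
  have h : q / q = 1 := Nat.div_self hq.pos
  have : Subsingleton (ZMod (q / q))ˣ := by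
    rw [h]
    infer_instance
  exact Subsingleton.elim _ _

lemma PD_prime (m : ℕ) [NeZero m] (c : ZMod m → ℤ) (hT : TateF (anti c))
    (h : ∀ x, anti c x ≠ 0 → (addOrderOf x).Prime) (x : ZMod m) : anti c x = 0 := by
  by_contra hx
  have hq := h x hx
  obtain ⟨q, hqx⟩ : ∃ q, addOrderOf x = q := ⟨_, rfl⟩
  rw [hqx] at hq
  have hd : q ∣ m := hqx ▸ addOrderOf_dvd' x
  have : NeZero q := ⟨hq.ne_zero⟩
  obtain ⟨z, hz⟩ := exists_emb x hqx
  have hmax : ∀ y, q ∣ addOrderOf y → addOrderOf y ≠ q → anti c y = 0 := by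
    intro y h1 h2
    by_contra h3
    rcases (Nat.dvd_prime (h y h3)).1 h1 with h4 | h4
    · exact hq.ne_one h4
    · exact h2 h4.symm
  have hm := PA_mdv hd c hT hmax [q] (by rw [hq.primeFactors]; simp)
  have h1 : ∀ u ∈ Gam q q, ∀ y : (ZMod q)ˣ,
      anti c (emb q m ((u * y : (ZMod q)ˣ) : ZMod q)) - anti c (emb q m (y : ZMod q)) = 0 := hm
  have h2 := h1 (-1) (PD_top q hq _) z
  rw [neg_one_mul, PA_odd hd, hz] at h2
  apply hx
  linarith

/-! ### transport of sums -/

lemma PD_sum {m D : ℕ} [NeZero m] [NeZero D] (hD : D ∣ m) (F : ZMod m → ℤ) :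
    ∑ z : (ZMod D)ˣ, |F (emb D m (z : ZMod D))| =
      ∑ x, if addOrderOf x = D then |F x| else 0 := by
  classical
  have h1 : ∑ x ∈ (univ.image fun z : (ZMod D)ˣ => emb D m (z : ZMod D)),
      (if addOrderOf x = D then |F x| else 0) =
        ∑ z : (ZMod D)ˣ, |F (emb D m (z : ZMod D))| := by
    rw [Finset.sum_image (fun z _ w _ h => Units.ext (emb_injective hD h))]
    exact Finset.sum_congr rfl fun z _ => by rw [addOrderOf_emb hD, if_pos rfl]
  rw [← h1]
  apply Finset.sum_subset (Finset.subset_univ _)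
  intro x _ hx
  rw [if_neg]
  intro h
  obtain ⟨z, hz⟩ := exists_emb x h
  exact hx (Finset.mem_image.2 ⟨z, Finset.mem_univ _, hz⟩)

/-! ### arithmetic of `3 p` -/

lemma PD_pf (p : ℕ) (hp : p.Prime) (_h5 : 5 ≤ p) : (3 * p).primeFactors = {3, p} := by
  rw [Nat.primeFactors_mul (by norm_num) hp.ne_zero, Nat.Prime.primeFactors (by norm_num),
    hp.primeFactors]
  rfl

lemma PD_hmax (m : ℕ) [NeZero m] (F : ZMod m → ℤ) (p : ℕ) (hp : p.Prime) (h5 : 5 ≤ p)
    (hC : ∀ x, F x ≠ 0 → (addOrderOf x).Prime ∨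
        ∃ q, q.Prime ∧ 5 ≤ q ∧ addOrderOf x = 3 * q) :
    ∀ x, 3 * p ∣ addOrderOf x → addOrderOf x ≠ 3 * p → F x = 0 := by
  intro x h1 h2
  by_contra h3
  rcases hC x h3 with h4 | ⟨q, hq, _, h4⟩
  · rcases (Nat.dvd_prime h4).1 h1 with h6 | h6
    · omega
    · rw [← h6] at h4
      exact Nat.not_prime_mul (by norm_num) hp.ne_one h4
  · rw [h4] at h1
    have h6 : p ∣ q := Nat.dvd_of_mul_dvd_mul_left (by norm_num) h1
    rcases (Nat.dvd_prime hq).1 h6 with h7 | h7
    · exact hp.ne_one h7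
    · exact h2 (by rw [h4, h7])

/-- the twist modulo `3 p` -/
lemma PD_nu (m : ℕ) [NeZero m] (p : ℕ) (hp : p.Prime) (h5 : 5 ≤ p) (hD : 3 * p ∣ m) :
    ∃ ν : (ZMod (3 * p))ˣ, ν ∈ Gam (3 * p) 3 ∧ ν ≠ 1 ∧ -ν ∈ Gam (3 * p) p ∧ ν * ν = 1 := by
  obtain ⟨u, hu1, hu2, hu3⟩ := exists_tw m
  have h3m : 3 ∣ m := (Dvd.intro _ rfl).trans hD
  have h9 : ¬ 9 ∣ 3 * p := by
    intro h
    have h1 : 3 ∣ p := Nat.dvd_of_mul_dvd_mul_left (by norm_num : 0 < 3) (by simpa using h)
    rcases (Nat.dvd_prime hp).1 h1 with h2 | h2 <;> omega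
  obtain ⟨k1, k2⟩ := hu3 (3 * p) hD (Dvd.intro _ rfl) h9
  obtain ⟨-, k3⟩ := hu3 3 h3m dvd_rfl (by norm_num)
  refine ⟨_, k1, k2, ?_, by rw [← map_mul, hu1, map_one]⟩
  have hk : ZMod.unitsMap h3m u = -1 := by
    have : ∀ y : (ZMod 3)ˣ, y ≠ 1 → y = -1 := by decide
    exact this _ k3
  have hpd : p ∣ 3 * p := Dvd.intro_left _ rfl
  unfold Gam
  rw [dif_pos hpd, MonoidHom.mem_ker]
  have h3 : 3 * p / p = 3 := Nat.mul_div_cancel _ hp.pos
  have key : ∀ (e : ℕ) (he : e ∣ 3 * p), e = 3 →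
      ZMod.unitsMap he (-(ZMod.unitsMap hD u)) = 1 := by
    rintro e he rfl
    have h4 : ZMod.unitsMap he (ZMod.unitsMap hD u) = ZMod.unitsMap h3m u := by
      rw [← MonoidHom.comp_apply, ZMod.unitsMap_comp]
    have h5 : ZMod.unitsMap he (-(ZMod.unitsMap hD u)) = -ZMod.unitsMap he (ZMod.unitsMap hD u) := by
      ext
      simp [ZMod.unitsMap]
    rw [h5, h4, hk, neg_neg]
  exact key _ _ h3

lemma PD_card3 (p : ℕ) (hp : p.Prime) (h5 : 5 ≤ p) [NeZero (3 * p)] :
    Nat.card (Gam (3 * p) 3) = 2 := by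
  rw [card_Gam (3 * p) 3 (by norm_num) (Dvd.intro _ rfl), if_neg]
  intro h
  have h1 : 3 ∣ p := Nat.dvd_of_mul_dvd_mul_left (by norm_num : 0 < 3) (by simpa using h)
  rcases (Nat.dvd_prime hp).1 h1 with h2 | h2 <;> omega

lemma PD_cardp (p : ℕ) (hp : p.Prime) (h5 : 5 ≤ p) [NeZero (3 * p)] :
    Nat.card (Gam (3 * p) p) = p - 1 := by
  rw [card_Gam (3 * p) p hp (Dvd.intro_left _ rfl), if_neg]
  intro h
  have h1 : p ∣ 3 := by
    rw [pow_two] at h
    exact Nat.dvd_of_mul_dvd_mul_right hp.pos h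
  have := Nat.le_of_dvd (by norm_num) h1
  omega

lemma PD_tot (p : ℕ) (hp : p.Prime) (h5 : 5 ≤ p) [NeZero (3 * p)] :
    (3 * p).totient = Nat.card (Gam (3 * p) 3) * Nat.card (Gam (3 * p) p) := by
  rw [PD_card3 p hp h5, PD_cardp p hp h5, Nat.totient_mul, Nat.totient_prime hp]
  · rfl
  · exact (Nat.Prime.coprime_iff_not_dvd (by norm_num)).2 fun h1 => by
      rcases (Nat.dvd_prime hp).1 h1 with h2 | h2 <;> omega

/-- for `p ≥ 17` and small norm the parity is even -/
lemma PD_even (p : ℕ) (hp : p.Prime) (h17 : 17 ≤ p) [NeZero (3 * p)] (ν : (ZMod (3 * p))ˣ)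
    (h1 : ν ∈ Gam (3 * p) 3) (hν1 : ν ≠ 1) (hν : ν * ν = 1)
    (f : (ZMod (3 * p))ˣ → ℤ) (hf : MDv (Gam (3 * p)) [3, p] f) (h12 : ∑ x, |f x| ≤ 12) :
    Even (f 1 + f ν) := by
  classical
  by_contra hcon
  have h5 : 5 ≤ p := by omega
  have h3p : 3 ≠ p := by omega
  have hLn : [3, p].Nodup := by simp [h3p]
  have hL : [3, p].toFinset = (3 * p).primeFactors := by rw [PD_pf p hp h5]; simp
  have hI : Indep (Gam (3 * p)) [3, p] := indep_Gam _ _ hLn fun r hr => by
    rw [← hL, List.mem_toFinset]; exact hr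
  have htop : Pl (Gam (3 * p)) [3, p] = ⊤ := by
    apply Pl_eq_top (Gam (3 * p)) [3, p] hI
    rw [Nat.card_eq_fintype_card, ZMod.card_units_eq_totient, PD_tot p hp h5]
    simp
  have htop' : Gam (3 * p) 3 ⊔ Gam (3 * p) p = ⊤ := by
    simpa [Pl] using htop
  have hmd : ∀ a ∈ Gam (3 * p) 3, ∀ b ∈ Gam (3 * p) p, ∀ x,
      (f (a * (b * x)) - f (b * x)) - (f (a * x) - f x) = 0 := hf
  have hy : ∀ y ∈ Gam (3 * p) 3, y = 1 ∨ y = ν := by
    intro y hy
    obtain ⟨w, -, hw⟩ := (Nat.card_eq_two_iff' (1 : Gam (3 * p) 3)).1 (PD_card3 p hp h5)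
    by_cases hy1 : y = 1
    · exact Or.inl hy1
    · right
      have e1 := hw ⟨y, hy⟩ (by simpa [Subtype.ext_iff] using hy1)
      have e2 := hw ⟨ν, h1⟩ (by simpa [Subtype.ext_iff] using hν1)
      have := e1.trans e2.symm
      simpa using this
  have hoddx : ∀ x, ¬ Even (f x + f (ν * x)) := by
    intro x
    have hx : x ∈ Gam (3 * p) 3 ⊔ Gam (3 * p) p := by rw [htop']; trivial
    obtain ⟨y, hy3, z, hz, rfl⟩ := Subgroup.mem_sup.1 hx
    have h6 := hmd ν h1 z hz 1
    rw [mul_one, mul_one] at h6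
    rcases hy y hy3 with rfl | rfl
    · rw [one_mul]
      intro h7
      apply hcon
      rw [Int.even_iff] at h7 ⊢
      omega
    · rw [← mul_assoc, hν, one_mul]
      intro h7
      apply hcon
      rw [Int.even_iff] at h7 ⊢
      omega
  have h7 : ∀ x, (1 : ℤ) ≤ |f x| + |f (ν * x)| := by
    intro x
    by_contra h8
    have h9 : |f x| + |f (ν * x)| = 0 := by
      have := abs_nonneg (f x)
      have := abs_nonneg (f (ν * x))
      omega
    have h10 : f x = 0 := by
      have := abs_nonneg (f x)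
      have := abs_nonneg (f (ν * x))
      exact abs_eq_zero.1 (by omega)
    have h11 : f (ν * x) = 0 := by
      have := abs_nonneg (f x)
      have := abs_nonneg (f (ν * x))
      exact abs_eq_zero.1 (by omega)
    exact hoddx x (by rw [h10, h11]; decide)
  have h8 : (Fintype.card (ZMod (3 * p))ˣ : ℤ) ≤ ∑ x, (|f x| + |f (ν * x)|) := by
    calc (Fintype.card (ZMod (3 * p))ˣ : ℤ) = ∑ _x : (ZMod (3 * p))ˣ, (1 : ℤ) := by simp
      _ ≤ _ := Finset.sum_le_sum fun x _ => h7 x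
  rw [Finset.sum_add_distrib] at h8
  have h9 : ∑ x, |f (ν * x)| = ∑ x, |f x| :=
    Fintype.sum_equiv (Equiv.mulLeft ν) _ _ (fun x => rfl)
  rw [h9, ZMod.card_units_eq_totient, PD_tot p hp h5, PD_card3 p hp h5, PD_cardp p hp h5] at h8
  push_cast [Nat.cast_sub (show 1 ≤ p by omega)] at h8
  omega

/-! ### the step -/

open Pool.Agent.helper34.DH in
/-- result of the step at order `3 p` -/
def PDout (m : ℕ) [NeZero m] (p : ℕ) (c : ZMod m → ℤ) : Prop :=
  ∃ c' : ZMod m → ℤ, TateF (anti c') ∧ (∀ x, addOrderOf x = 3 * p → anti c' x = 0) ∧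
    (∀ x, addOrderOf x ≠ 3 * p → addOrderOf x ≠ 3 → addOrderOf x ≠ p → anti c' x = anti c x) ∧
    cls m c - cls m c' ∈ E1

lemma PD_ndec (m : ℕ) [NeZero m] (p : ℕ) (hp : p.Prime) (h5 : 5 ≤ p) [NeZero (3 * p)]
    (hD : 3 * p ∣ m) (c : ZMod m → ℤ) (hT : TateF (anti c))
    (h : NDec (3 * p) (fun z => anti c (emb (3 * p) m (z : ZMod (3 * p))))) : PDout m p c := by
  obtain ⟨c', h1, h2, h3, j, hj⟩ := step3 m (3 * p) hD c hT h
  refine ⟨c', h1, h2, ?_, ?_⟩
  · intro x k1 k2 k3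
    apply h3 x k1
    intro q hq
    rw [PD_pf p hp h5, Finset.mem_insert, Finset.mem_singleton] at hq
    rcases hq with rfl | rfl
    · rw [Nat.mul_div_cancel_left _ (by norm_num)]; exact k3
    · rw [Nat.mul_div_cancel _ hp.pos]; exact k2
  · rw [hj]
    have : cls m c - (cls m c + j • Pool.Agent.helper34.DH.hh) =
        -(j • Pool.Agent.helper34.DH.hh) := by abel
    rw [this]
    exact E1.neg_mem (E1.zsmul_mem hh_mem j)

lemma PD_fix (m : ℕ) [NeZero m] (p : ℕ) (hp : p.Prime) (h5 : 5 ≤ p) [NeZero (3 * p)]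
    (hD : 3 * p ∣ m) (c : ZMod m → ℤ) (hT : TateF (anti c))
    (hC : ∀ x, anti c x ≠ 0 → (addOrderOf x).Prime ∨
        ∃ q, q.Prime ∧ 5 ≤ q ∧ addOrderOf x = 3 * q)
    (hF : Pool.Agent.helper76.LP.Fix (3 * p)) : PDout m p c := by
  obtain ⟨e, he1, he2, he3⟩ := hF
  have hmax := PD_hmax m (anti c) p hp h5 hC
  set c2 : ZMod m → ℤ := fun x => c x - push (3 * p) m e x with hc2
  have ha : ∀ x, anti c2 x = anti c x - push (3 * p) m (anti e) x := by
    intro x
    rw [hc2, anti_sub, anti_push (3 * p) m hD]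
  have hT2 : TateF (anti c2) := by
    intro t
    have h1 := hT t
    have h2 := tateF_push (3 * p) m hD (anti e) he1 t
    simp_rw [ha, sub_mul]
    rw [Finset.sum_sub_distrib, h1, h2, sub_zero]
  have hpush : ∀ x, ¬ addOrderOf x ∣ 3 * p → push (3 * p) m (anti e) x = 0 := by
    intro x hx
    by_contra h1
    exact hx (push_order (3 * p) m hD _ x h1)
  have hmax2 : ∀ x, 3 * p ∣ addOrderOf x → addOrderOf x ≠ 3 * p → anti c2 x = 0 := by
    intro x h1 h2
    rw [ha, hmax x h1 h2, hpush x fun h3 => h2 (Nat.dvd_antisymm h3 h1), sub_zero]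
  have h := he3 (fun z => anti c (emb (3 * p) m (z : ZMod (3 * p))))
    (fun z => anti c2 (emb (3 * p) m (z : ZMod (3 * p)))) (PA_odd hD c)
    (fun L _ hL => PA_mdv hD c hT hmax L hL)
    (by funext z; rw [ha, push_emb (3 * p) m hD]) (PA_odd hD c2)
    (fun L _ hL => PA_mdv hD c2 hT2 hmax2 L hL)
  rcases h with h | h
  · exact PD_ndec m p hp h5 hD c hT h
  · obtain ⟨c', h1, h2, h3, h4⟩ := PD_ndec m p hp h5 hD c2 hT2 h
    refine ⟨c', h1, h2, ?_, ?_⟩
    · intro x k1 k2 k3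
      rw [h3 x k1 k2 k3, ha]
      by_cases h6 : addOrderOf x ∣ 3 * p
      · -- the order is 1
        have h7 : addOrderOf x = 1 := by
          by_contra h8
          have h9 : addOrderOf x ∈ (3 * p).divisors := Nat.mem_divisors.2 ⟨h6, NeZero.ne _⟩
          obtain ⟨a, b, hab, ha3, hbp⟩ : ∃ a b, a * b = addOrderOf x ∧ a ∣ 3 ∧ b ∣ p := by
            obtain ⟨a, b, h10, h11, h12⟩ := exists_dvd_and_dvd_of_dvd_mul h6
            exact ⟨a, b, h12.symm, h10, h11⟩
          rcases (Nat.dvd_prime (by norm_num : Nat.Prime 3)).1 ha3 with rfl | rfl <;>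
            rcases (Nat.dvd_prime hp).1 hbp with rfl | rfl
          · exact h8 hab.symm
          · exact k3 (by rw [← hab, one_mul])
          · exact k2 hab.symm
          · exact k1 hab.symm
        have h8 : x = 0 := AddMonoid.addOrderOf_eq_one_iff.1 h7
        have h9 : push (3 * p) m (anti e) 0 = 0 := by
          rw [← anti_push (3 * p) m hD]
          unfold anti
          simp
        rw [h8, h9, sub_zero]
      · rw [hpush x h6, sub_zero]
    · have h6 : cls m c2 = cls m c - cls (3 * p) e := by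
        rw [hc2, cls_sub, cls_push (3 * p) m hD]
      have h7 : cls m c - cls m c' = (cls m c2 - cls m c') + cls (3 * p) e := by
        rw [h6]; abel
      rw [h7]
      exact E1.add_mem h4 he2

lemma PD_step (m : ℕ) [NeZero m] (p : ℕ) (hp : p.Prime) (h5 : 5 ≤ p)
    (hD : 3 * p ∣ m) (c : ZMod m → ℤ) (hT : TateF (anti c))
    (hC : ∀ x, anti c x ≠ 0 → (addOrderOf x).Prime ∨
        ∃ q, q.Prime ∧ 5 ≤ q ∧ addOrderOf x = 3 * q)
    (h12 : ∑ x, (if addOrderOf x = 3 * p then |anti c x| else 0) ≤ 12) : PDout m p c := by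
  have : NeZero (3 * p) := ⟨by omega⟩
  by_cases h17 : 17 ≤ p
  · obtain ⟨ν, h1, h2, h3, h4⟩ := PD_nu m p hp h5 hD
    have hmax := PD_hmax m (anti c) p hp h5 hC
    have hmd := PA_mdv hD c hT hmax [3, p] (by rw [PD_pf p hp h5]; simp)
    refine PD_ndec m p hp h5 hD c hT (ndec_two (3 * p) 3 p (by omega) (PD_pf p hp h5)
      (PD_tot p hp h5) ν h1 h3 h4 _ (PA_odd hD c) hmd ?_)
    refine PD_even p hp h17 ν h1 h2 h4 _ hmd ?_
    rw [PD_sum hD]
    exact h12
  · have key : 3 * p ∈ ({12, 15, 20, 21, 28, 33, 39} : Finset ℕ) := by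
      have h18 : p < 17 := by omega
      clear this hD h12 hC
      interval_cases p
      all_goals first
        | (exfalso; revert hp; norm_num; done)
        | decide
    exact PD_fix m p hp h5 hD c hT hC (fix_of_mem (3 * p) key)

open Pool.Agent.helper34.DH in
lemma PD_ind (m : ℕ) [NeZero m] : ∀ (B : ℕ) (c : ZMod m → ℤ), TateF (anti c) →
    (∀ x, anti c x ≠ 0 → (addOrderOf x).Prime ∨
        ∃ q, q.Prime ∧ 5 ≤ q ∧ addOrderOf x = 3 * q) →
    (∀ q, q.Prime → ∑ x, (if addOrderOf x = 3 * q then |anti c x| else 0) ≤ 12) →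
    (∀ x, anti c x ≠ 0 → ∀ q, q.Prime → addOrderOf x = 3 * q → q ≤ B) → cls m c ∈ E1 := by
  intro B
  induction B with
  | zero =>
    intro c hT hC _ hb
    obtain ⟨j, hj⟩ := cls_even m c (PD_prime m c hT fun x hx => by
      rcases hC x hx with h | ⟨q, hq, h5, h⟩
      · exact h
      · have := hb x hx q hq h
        omega)
    rw [hj]
    exact E1.zsmul_mem hh_mem j
  | succ B ih =>
    intro c hT hC h12 hb
    by_cases hp : (B + 1).Prime ∧ 5 ≤ B + 1 ∧ 3 * (B + 1) ∣ m
    · obtain ⟨hp, h5, hD⟩ := hp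
      have hp3 : B + 1 ≠ 3 := by omega
      obtain ⟨c', h1, h2, h3, h4⟩ := PD_step m (B + 1) hp h5 hD c hT hC (h12 _ hp)
      have hq1 : ∀ q, q.Prime → 3 * q ≠ 3 := fun q hq h => by
        have := hq.two_le
        omega
      have hq2 : ∀ q, 3 * q ≠ B + 1 := fun q h => by
        rcases (Nat.dvd_prime hp).1 (Dvd.intro _ h : 3 ∣ B + 1) with h6 | h6
        · omega
        · exact hp3 h6.symm
      have h5' : cls m c' ∈ E1 := by
        apply ih c' h1
        · intro x hx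
          by_cases k1 : addOrderOf x = 3 * (B + 1)
          · exact absurd (h2 x k1) hx
          by_cases k2 : addOrderOf x = 3
          · left; rw [k2]; norm_num
          by_cases k3 : addOrderOf x = B + 1
          · left; rw [k3]; exact hp
          · rw [h3 x k1 k2 k3] at hx
            exact hC x hx
        · intro q hq
          refine le_trans (Finset.sum_le_sum fun x _ => ?_) (h12 q hq)
          split_ifs with k
          · by_cases k1 : q = B + 1
            · rw [h2 x (by rw [k, k1]), abs_zero]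
              exact abs_nonneg _
            · rw [h3 x (by rw [k]; omega) (by rw [k]; exact hq1 q hq) (by rw [k]; exact hq2 q)]
          · exact le_rfl
        · intro x hx q hq hxq
          have k1 : q ≠ B + 1 := by
            rintro rfl
            exact hx (h2 x hxq)
          rw [h3 x (by rw [hxq]; omega) (by rw [hxq]; exact hq1 q hq)
            (by rw [hxq]; exact hq2 q)] at hx
          have := hb x hx q hq hxq
          omega
      have h6 := E1.add_mem h4 h5'
      rwa [sub_add_cancel] at h6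
    · apply ih c hT hC h12
      intro x hx q hq hxq
      have h1 := hb x hx q hq hxq
      have h2 : q ≠ B + 1 := by
        rintro rfl
        apply hp
        refine ⟨hq, ?_, hxq ▸ addOrderOf_dvd' x⟩
        rcases hC x hx with h | ⟨r, hr, h5, h⟩
        · rw [hxq] at h
          exact absurd h (Nat.not_prime_mul (by norm_num) hq.ne_one)
        · rw [hxq] at h
          have : B + 1 = r := Nat.eq_of_mul_eq_mul_left (by norm_num) h
          omega
      omega

open Pool.Agent.helper34.DH in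
theorem phaseD (m : ℕ) [NeZero m] (h2 : Odd m) (c : ZMod m → ℤ) (hT : TateF (anti c))
    (h12 : normw (anti c) ≤ 12)
    (hC : ∀ x, anti c x ≠ 0 → (addOrderOf x).Prime ∨
        ∃ p, p.Prime ∧ 5 ≤ p ∧ addOrderOf x = 3 * p) : cls m c ∈ E1 := by
  refine PD_ind m m c hT hC ?_ ?_
  · intro q _
    refine le_trans (Finset.sum_le_sum fun x _ => ?_) (PB_sum12 _ h12)
    split_ifs
    · exact le_rfl
    · exact abs_nonneg _
  · intro x _ q hq hxq
    have h1 := Nat.le_of_dvd (Nat.pos_of_ne_zero (NeZero.ne m)) (addOrderOf_dvd' x)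
    omega

end Pool.Agent.helper88.OF
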